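import Pool.Agent.helper66.SL.SpecC

/-!
# MP_ad2b66_co, row sl:IN1: three times the number of topes is twice the number of edges
-/

set_option autoImplicit false

namespace Pool.Agent.helper66.SL

open Pool.Agent.helper52.FC

/-- Double counting with `Set.ncard`. -/
theorem IN1_dc {α β : Type} [Finite α] [Finite β] (s : Set α) (t : Set β) (r : α → β → Prop)
    (m n : ℕ) (hm : ∀ a ∈ s, {b | b ∈ t ∧ r a b}.ncard = m)
    (hn : ∀ b ∈ t, {a | a ∈ s ∧ r a b}.ncard = n) : s.ncard * m = t.ncard * n := by
  classical
  have := Fintype.ofFinite α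
  have := Fintype.ofFinite β
  rw [Set.ncard_eq_toFinset_card' s, Set.ncard_eq_toFinset_card' t]
  refine Finset.card_mul_eq_card_mul r (fun a ha => ?_) (fun b hb => ?_)
  · rw [← hm a (by simpa using ha), Set.ncard_eq_toFinset_card']
    congr 1
    ext b
    simp [Finset.bipartiteAbove]
  · rw [← hn b (by simpa using hb), Set.ncard_eq_toFinset_card']
    congr 1
    ext a
    simp [Finset.bipartiteBelow]

theorem IN1_proof (hWFZ : WFZ) (hCRK : CRK) (hXUQ : XUQ) : IN1 := by
  intro E _ L hL
  have hsupp : ∀ T, IsTope L T → ∀ e, T e ≠ 0 := fun T hT e =>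
    tope_supp hL.good.om hL.good.simple hT e
  have hfz0 : ∀ T, IsTope L T → ∀ e g, fz T e g = 0 → g = e := by
    intro T hT e g h
    by_contra hne
    rw [fz_ne T hne] at h
    exact hsupp T hT g h
  have hfl : ∀ T, IsTope L T → ∀ e, Le (fz T e) T := by
    intro T hT e g
    by_cases hg : g = e
    · rw [hg]
      exact Or.inl (fz_same T e)
    · exact Or.inr (fz_ne T hg)
  have hunder : ∀ T X, IsTope L T → Cork L X 1 → Le X T → ∃ e, Wall L T e ∧ X = fz T e := by
    intro T X hT hX hXT
    obtain ⟨e, he⟩ := Set.ncard_eq_one.1 (hX.2 T hT hXT)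
    have he' : e ∈ {g | Wall L T g ∧ X g = 0} := by
      rw [he]
      exact rfl
    refine ⟨e, he'.1, hXUQ E L hL.good T hT X hX.1 _
      ((hWFZ E L hL.good.om hL.good.simple T hT e).1 he'.1) hXT (hfl T hT e) fun g hg => ?_⟩
    constructor
    · intro h
      have : g ∈ {g | Wall L T g ∧ X g = 0} := ⟨hg, h⟩
      rw [he] at this
      have h2 : g = e := this
      rw [h2]
      exact fz_same T e
    · intro h
      rw [hfz0 T hT e g h]
      exact he'.2
  have hover : ∀ T e, IsTope L T → Wall L T e → Cork L (fz T e) 1 := by
    intro T e hT he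
    have h1 := hCRK E L hL.good (fz T e)
      ((hWFZ E L hL.good.om hL.good.simple T hT e).1 he) T hT (hfl T hT e)
    have h2 : {g | Wall L T g ∧ fz T e g = 0} = {e} := by
      ext g
      constructor
      · intro h
        exact hfz0 T hT e g h.2
      · intro h
        have h' : g = e := h
        rw [h']
        exact ⟨he, fz_same T e⟩
    rw [h2, Set.ncard_singleton] at h1
    exact h1
  have key := IN1_dc {T | IsTope L T} {X | Cork L X 1} (fun T X => Le X T) 3 2 ?_ ?_
  · omega
  · intro T hT
    have hT' : IsTope L T := hT
    have h1 : {X | X ∈ {X | Cork L X 1} ∧ Le X T} = (fun e => fz T e) '' {e | Wall L T e} := by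
      ext X
      constructor
      · rintro ⟨hX, hXT⟩
        obtain ⟨e, he, h⟩ := hunder T X hT' hX hXT
        exact ⟨e, he, h.symm⟩
      · rintro ⟨e, he, rfl⟩
        exact ⟨hover T e hT' he, hfl T hT' e⟩
    have hinj : Function.Injective (fun e => fz T e) := by
      intro e e' h
      have h2 : fz T e e = fz T e' e := congrFun h e
      rw [fz_same] at h2
      exact hfz0 T hT' e' e h2.symm
    rw [h1, Set.ncard_image_of_injective _ hinj]
    have h3 := hL.rk.2 T hT' (fun e => Or.inl rfl)
    rw [← h3]
    congr 1
    ext e
    exact ⟨fun h => ⟨h, rfl⟩, fun h => h.1⟩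
  · intro X hX
    have hX' : Cork L X 1 := hX
    obtain ⟨T1, hT1⟩ := exists_tope hL.good.om
    have hT : IsTope L (cmp X T1) := tope_of (hL.good.om.comp X hX'.1 T1 hT1.1) (fun g => by
      by_cases h : X g = 0
      · rw [cmp_pos h]
        exact hsupp T1 hT1 g
      · rw [cmp_neg h]
        exact h)
    obtain ⟨e, he, hXe⟩ := hunder _ X hT hX' (le_cmp X T1)
    have h1 : {T | T ∈ {T | IsTope L T} ∧ Le X T} = {cmp X T1, fl (cmp X T1) e} := by
      ext T
      constructor
      · rintro ⟨hT2, hXT⟩
        have hT2' : IsTope L T := hT2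
        have hoff : ∀ g, g ≠ e → T g = cmp X T1 g := by
          intro g hg
          have h2 : X g = cmp X T1 g := by
            conv_lhs => rw [hXe]
            exact fz_ne _ hg
          rcases hXT g with h3 | h3
          · exact absurd (h2.symm.trans h3) (hsupp _ hT g)
          · exact h3.symm.trans h2
        by_cases h4 : T e = cmp X T1 e
        · refine Or.inl (funext fun g => ?_)
          by_cases hg : g = e
          · rw [hg]
            exact h4
          · exact hoff g hg
        · refine Or.inr (funext fun g => ?_)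
          by_cases hg : g = e
          · rw [hg, fl_same]
            exact sne (hsupp T hT2' e) (hsupp _ hT e) h4
          · rw [fl_ne _ hg]
            exact hoff g hg
      · intro h
        rcases h with h | h
        · rw [h]
          exact ⟨hT, le_cmp X T1⟩
        · have h' : T = fl (cmp X T1) e := h
          rw [h']
          refine ⟨he, fun g => ?_⟩
          by_cases hg : g = e
          · refine Or.inl ?_
            rw [hXe, hg]
            exact fz_same _ e
          · refine Or.inr ?_
            rw [fl_ne _ hg]
            conv_lhs => rw [hXe]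
            exact fz_ne _ hg
    rw [h1, Set.ncard_pair]
    intro h
    have h2 := congrFun h e
    rw [fl_same] at h2
    exact hsupp _ hT e (sneg h2 rfl)

end Pool.Agent.helper66.SL
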