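import Pool.Agent.helper66.SL.SpecK

/-!
# MP_ad2b66_co, row slk:KSR: unique sources
-/

set_option autoImplicit false

namespace Pool.Agent.helper66.SL

open Pool.Agent.helper52.FC

theorem KSR_dist {E : Type} [Finite E] {B T : E → SignType} (hB : ∀ e, B e ≠ 0) (hT : ∀ e, T e ≠ 0)
    {e : E} (h : T e ≠ B e) : dist B (fl T e) < dist B T := by
  refine Set.ncard_lt_ncard ?_ (Set.toFinite _)
  refine (Set.ssubset_iff_of_subset ?_).2 ⟨e, fun h' => h h'.symm, ?_⟩
  · intro g hg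
    by_cases hgi : g = e
    · rw [hgi]
      exact fun h' => h h'.symm
    · have h1 : B g ≠ fl T e g := hg
      rw [fl_ne T hgi] at h1
      exact h1
  · intro h1
    have h' : B e ≠ fl T e e := h1
    rw [fl_same] at h'
    exact h' (sne (hB e) (hT e) (fun h2 => h h2.symm))

theorem KSR_proof (hKF1 : KF1) (hKF2 : KF2) (hKF3 : KF3) (hKGN : KGN) (hKCP : KCP) (hKCL : KCL)
    (hKLL : KLL) : KSR := by
  intro E _ L r P φ hK
  classical
  obtain ⟨l, hl⟩ := hKGN E L r P φ hK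
  obtain ⟨hfin, hcard⟩ := hKCP E L r P φ hK l hl
  have hLL := hKLL E L hK.good (fun S => l (vp φ S)) hl
  rw [← hcard] at hLL
  have hsupp : ∀ T, IsTope L T → ∀ e, T e ≠ 0 := fun T hT e =>
    tope_supp hK.good.om hK.good.simple hT e
  obtain ⟨-, hF3⟩ := hKF3 E L r P φ hK
  -- for every tope
  have key : ∀ B, IsTope L B → (Fc P).ncard = L.ncard ∧ ∀ F ∈ Fc P, ∀ T T', IsTope L T →
      IsTope L T' → vp φ T ∈ F → vp φ T' ∈ F →
      (∀ e, Wall L T e → vp φ (fl T e) ∈ F → T e = B e) →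
      (∀ e, Wall L T' e → vp φ (fl T' e) ∈ F → T' e = B e) → T = T' := by
    intro B hB
    have hCL := hKCL E L hK.good B hB
    have hpairs := pairs_ncard L (fun T => {e | Wall L T e ∧ T e = B e})
    have hCL' : {q : (E → SignType) × Set E | IsTope L q.1 ∧
        q.2 ⊆ {e | Wall L q.1 e ∧ q.1 e = B e}}.ncard = L.ncard := by
      rw [hpairs, hCL]
      rfl
    have hSfin : {p : Set (EuclideanSpace ℝ (Fin r)) × (E → SignType) | p.1 ∈ Fc P ∧
        IsTope L p.2 ∧ vp φ p.2 ∈ p.1 ∧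
        ∀ e, Wall L p.2 e → vp φ (fl p.2 e) ∈ p.1 → p.2 e = B e}.Finite :=
      (hfin.prod (Set.finite_univ : (Set.univ : Set (E → SignType)).Finite)).subset
        fun p hp => ⟨hp.1, Set.mem_univ _⟩
    set S : Set (Set (EuclideanSpace ℝ (Fin r)) × (E → SignType)) := {p | p.1 ∈ Fc P ∧
        IsTope L p.2 ∧ vp φ p.2 ∈ p.1 ∧
        ∀ e, Wall L p.2 e → vp φ (fl p.2 e) ∈ p.1 → p.2 e = B e} with hS
    have h1 : S.ncard ≤ L.ncard := by
      rw [← hCL']
      refine Set.ncard_le_ncard_of_injOn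
        (fun p => (p.2, {e | Wall L p.2 e ∧ vp φ (fl p.2 e) ∈ p.1})) ?_ ?_ (Set.toFinite _)
      · intro p hp
        exact ⟨hp.2.1, fun e he => ⟨he.1, hp.2.2.2 e he.1 he.2⟩⟩
      · rintro ⟨F, T⟩ hp ⟨F', T'⟩ hp' h
        have h2 : T = T' := (Prod.ext_iff.1 h).1
        subst h2
        have h3 : {e | Wall L T e ∧ vp φ (fl T e) ∈ F} = {e | Wall L T e ∧ vp φ (fl T e) ∈ F'} :=
          (Prod.ext_iff.1 h).2
        have h4 : F ⊆ F' := hKF2 E L r P φ hK T hp.2.1 F hp.1 F' hp'.1 hp.2.2.1 hp'.2.2.1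
          fun e he heF => by
            have : e ∈ {e | Wall L T e ∧ vp φ (fl T e) ∈ F'} := h3 ▸ ⟨he, heF⟩
            exact this.2
        have h5 : F' ⊆ F := hKF2 E L r P φ hK T hp.2.1 F' hp'.1 F hp.1 hp'.2.2.1 hp.2.2.1
          fun e he heF => by
            have : e ∈ {e | Wall L T e ∧ vp φ (fl T e) ∈ F} := h3 ▸ ⟨he, heF⟩
            exact this.2
        rw [Set.Subset.antisymm h4 h5]
    have h2 : Prod.fst '' S = Fc P := by
      ext F
      constructor
      · rintro ⟨p, hp, rfl⟩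
        exact hp.1
      · intro hF
        obtain ⟨⟨T0, hT0, hT0F⟩, -⟩ := hF3 F hF
        obtain ⟨T, ⟨hT, hTF⟩, hmin⟩ := Set.exists_min_image
          {T | IsTope L T ∧ vp φ T ∈ F} (fun T => dist B T) (Set.toFinite _) ⟨T0, hT0, hT0F⟩
        refine ⟨(F, T), ⟨hF, hT, hTF, fun e he heF => ?_⟩, rfl⟩
        by_contra hne
        have h3 := hmin (fl T e) ⟨he, heF⟩
        have h4 := KSR_dist (hsupp B hB) (hsupp T hT) hne
        exact absurd h3 (not_le.2 h4)
    have h3 : (Fc P).ncard ≤ S.ncard := by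
      rw [← h2]
      exact Set.ncard_image_le hSfin
    have h4 : (Prod.fst '' S).ncard = S.ncard := by
      rw [h2]
      omega
    have h5 : Set.InjOn Prod.fst S := Set.injOn_of_ncard_image_eq h4 hSfin
    refine ⟨by omega, fun F hF T T' hT hT' hTF hTF' hs hs' => ?_⟩
    have h6 : ((F, T) : Set (EuclideanSpace ℝ (Fin r)) × (E → SignType)) = (F, T') :=
      h5 (show (F, T) ∈ S from ⟨hF, hT, hTF, hs⟩) (show (F, T') ∈ S from ⟨hF, hT', hTF', hs'⟩) rfl
    exact (Prod.ext_iff.1 h6).2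
  obtain ⟨T0, hT0⟩ := exists_tope hK.good.om
  exact ⟨hfin, (key T0 hT0).1, fun B hB => (key B hB).2⟩

end Pool.Agent.helper66.SL
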