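import Pool.Agent.helper66.SL.SpecA

/-!
# MP_ad2b66_co, row sl:SGN: the sign lemma
-/

set_option autoImplicit false

namespace Pool.Agent.helper66.SL

open Pool.Agent.helper52.FC

theorem SGN_proof (hGEO : GEO) (hXJW : XJW) : SGN := by
  intro E _ L F hG hCD f hf B hB hB0 e
  classical
  have hBn : ∀ e, B e ≠ 0 := fun e => tope_supp hG.om hG.simple hB e
  have key : ∀ n : ℕ, ∀ T, IsTope L T → dist B T = n → ∀ i, Wall L T i → 0 < (B i : ℝ) * f i := by
    intro n
    induction n using Nat.strong_induction_on with
    | _ n ih =>
      intro T hT hn i hi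
      by_cases hTB : T = B
      · subst hTB
        exact hB0 i hi
      obtain ⟨i0, hi0, hne⟩ := hGEO E L hG.om hG.simple T B hT hB hTB
      have hTn : ∀ e, T e ≠ 0 := fun e => tope_supp hG.om hG.simple hT e
      by_cases hii : i = i0
      · subst hii
        have hlt : dist B (fl T i) < dist B T := by
          refine Set.ncard_lt_ncard ?_ (Set.toFinite _)
          refine (Set.ssubset_iff_of_subset ?_).2 ⟨i, fun h => hne h.symm, ?_⟩
          · intro g hg
            by_cases hgi : g = i
            · subst hgi
              exact fun h => hne h.symm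
            · have : B g ≠ fl T i g := hg
              rw [fl_ne T hgi] at this
              exact this
          · intro h
            have h' : B i ≠ fl T i i := h
            rw [fl_same] at h'
            exact h' (sne (hBn i) (hTn i) (fun h => hne h.symm))
        refine ih _ (hn ▸ hlt) (fl T i) hi rfl i ?_
        unfold Wall
        rw [fl_fl]
        exact hT
      · obtain ⟨Z, hZ, hZT, hZw⟩ := hXJW E L hG T hT {i, i0} (by
          intro g hg
          rcases hg with hg | hg
          · exact hg ▸ hi
          · exact hg ▸ hi0)
        rw [Set.ncard_pair hii] at hZ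
        have hZi : Z i = 0 := (hZw i hi).2 (Or.inl rfl)
        have hZi0 : Z i0 = 0 := (hZw i0 hi0).2 (Or.inr rfl)
        have hGt : IsTope L (cmp Z B) := tope_of (hG.om.comp Z hZ.1 B hB.1) (fun g => by
          by_cases h : Z g = 0
          · rw [cmp_pos h]
            exact hBn g
          · rw [cmp_neg h]
            exact h)
        have hZG : Le Z (cmp Z B) := le_cmp Z B
        have hlt : dist B (cmp Z B) < dist B T := by
          refine Set.ncard_lt_ncard ?_ (Set.toFinite _)
          refine (Set.ssubset_iff_of_subset ?_).2 ⟨i0, fun h => hne h.symm, ?_⟩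
          · intro g hg
            have hg' : B g ≠ cmp Z B g := hg
            by_cases h : Z g = 0
            · rw [cmp_pos h] at hg'
              exact absurd rfl hg'
            · rw [cmp_neg h] at hg'
              rcases hZT g with h1 | h1
              · exact absurd h1 h
              · rw [h1] at hg'
                exact hg'
          · intro h
            have h' : B i0 ≠ cmp Z B i0 := h
            rw [cmp_pos hZi0] at h'
            exact h' rfl
        obtain ⟨p, q, hpq, hset⟩ := Set.ncard_eq_two.1 (hZ.2 _ hGt hZG)
        have hp : Wall L (cmp Z B) p ∧ Z p = 0 := by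
          have : p ∈ {e | Wall L (cmp Z B) e ∧ Z e = 0} := by
            rw [hset]
            exact Or.inl rfl
          exact this
        have hq : Wall L (cmp Z B) q ∧ Z q = 0 := by
          have : q ∈ {e | Wall L (cmp Z B) e ∧ Z e = 0} := by
            rw [hset]
            exact Or.inr rfl
          exact this
        have h1 := ih _ (hn ▸ hlt) _ hGt rfl p hp.1
        have h2 := ih _ (hn ▸ hlt) _ hGt rfl q hq.1
        have h3 := hCD.pos Z hZ _ hGt hZG p q hpq hp.1 hq.1 hp.2 hq.2 f (hf Z hZ)
          (by rw [cmp_pos hp.2]; exact h1) (by rw [cmp_pos hq.2]; exact h2) i hZi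
        rwa [cmp_pos hZi] at h3
  obtain ⟨S, T, hS, hT, hd⟩ := exists_diff hG.om hG.simple e
  have hST : S = fl T e := by
    funext g
    by_cases hg : g = e
    · subst hg
      rw [fl_same]
      exact sne (tope_supp hG.om hG.simple hS g) (tope_supp hG.om hG.simple hT g) hd.1
    · rw [fl_ne T hg]
      exact hd.2 g hg
  exact key _ T hT rfl e (by unfold Wall; rw [← hST]; exact hS)

end Pool.Agent.helper66.SL
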