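import Pool.Agent.helper66.SL.SpecC

/-!
# MP_ad2b66_co, row sl:TRI: topes are triangles
-/

set_option autoImplicit false

namespace Pool.Agent.helper66.SL

open Pool.Agent.helper52.FC

theorem TRI_proof (hXJW : XJW) (hXUQ : XUQ) : TRI := by
  intro E _ L hL T hT
  have h0 := hL.rk.2 T hT (fun e => Or.inl rfl)
  obtain ⟨i, j, k, hij, hik, hjk, hset⟩ := Set.ncard_eq_three.1 h0
  have hw : ∀ g, Wall L T g ↔ g = i ∨ g = j ∨ g = k := by
    intro g
    have h1 : g ∈ {e | Wall L T e ∧ (fun _ => (0 : SignType)) e = 0} ↔ g ∈ ({i, j, k} : Set E) := by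
      rw [hset]
    constructor
    · intro h
      exact h1.1 ⟨h, rfl⟩
    · intro h
      exact (h1.2 h).1
  have wi : Wall L T i := (hw i).2 (Or.inl rfl)
  have wj : Wall L T j := (hw j).2 (Or.inr (Or.inl rfl))
  have wk : Wall L T k := (hw k).2 (Or.inr (Or.inr rfl))
  have hJ : ∀ x y z, x ≠ y → Wall L T x → Wall L T y → Wall L T z → z ≠ x → z ≠ y →
      (∀ g, Wall L T g → g = x ∨ g = y ∨ g = z) →
      ∃ p, Cork L p 2 ∧ Le p T ∧ p x = 0 ∧ p y = 0 ∧ p z ≠ 0 ∧
        ∀ s, Cork L s 2 → Le s T → s x = 0 → s y = 0 → s = p := by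
    intro x y z hxy wx wy wz hzx hzy hall
    obtain ⟨p, hp, hpT, hpw⟩ := hXJW E L hL.good T hT {x, y} (by
      intro g hg
      rcases hg with hg | hg
      · exact hg ▸ wx
      · exact hg ▸ wy)
    rw [Set.ncard_pair hxy] at hp
    have px := (hpw x wx).2 (Or.inl rfl)
    have py := (hpw y wy).2 (Or.inr rfl)
    have pz : p z ≠ 0 := fun h => by
      rcases (hpw z wz).1 h with h | h
      · exact hzx h
      · exact hzy h
    refine ⟨p, hp, hpT, px, py, pz, fun s hs hsT sx sy => ?_⟩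
    have sz : s z ≠ 0 := by
      intro h
      have h2 := hs.2 T hT hsT
      have h3 : {e | Wall L T e ∧ s e = 0} = {x, y, z} := by
        ext g
        constructor
        · intro hg
          exact hall g hg.1
        · rintro (hg | hg | hg)
          · rw [hg]
            exact ⟨wx, sx⟩
          · rw [hg]
            exact ⟨wy, sy⟩
          · have hg' : g = z := hg
            rw [hg']
            exact ⟨wz, h⟩
      rw [h3, Set.ncard_eq_three.2 ⟨x, y, z, hxy, hzx.symm, hzy.symm, rfl⟩] at h2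
      omega
    refine hXUQ E L hL.good T hT s hs.1 p hp.1 hsT hpT fun e he => ?_
    rcases hall e he with h | h | h
    · rw [h]
      exact ⟨fun _ => px, fun _ => sx⟩
    · rw [h]
      exact ⟨fun _ => py, fun _ => sy⟩
    · rw [h]
      exact ⟨fun h => absurd h sz, fun h => absurd h pz⟩
  obtain ⟨p, hp, hpT, pj, pk, pi, hpu⟩ := hJ j k i hjk wj wk wi hij hik (fun g hg => by
    rcases (hw g).1 hg with h | h | h
    · exact Or.inr (Or.inr h)
    · exact Or.inl h
    · exact Or.inr (Or.inl h))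
  obtain ⟨q, hq, hqT, qi, qk, qj, hqu⟩ := hJ i k j hik wi wk wj hij.symm hjk (fun g hg => by
    rcases (hw g).1 hg with h | h | h
    · exact Or.inl h
    · exact Or.inr (Or.inr h)
    · exact Or.inr (Or.inl h))
  obtain ⟨r, hr, hrT, ri, rj, rk, hru⟩ := hJ i j k hij wi wj wk hik.symm hjk.symm
    (fun g hg => (hw g).1 hg)
  refine ⟨i, j, k, p, q, r, hij, hik, hjk, hw, hp, hq, hr, hpT, hqT, hrT, pi, pj, pk, qi, qj, qk,
    ri, rj, rk, fun s hs hsT => ?_⟩
  obtain ⟨x, y, hxy, hs2⟩ := Set.ncard_eq_two.1 (hs.2 T hT hsT)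
  have hx : x ∈ {e | Wall L T e ∧ s e = 0} := by
    rw [hs2]
    exact Or.inl rfl
  have hy : y ∈ {e | Wall L T e ∧ s e = 0} := by
    rw [hs2]
    exact Or.inr rfl
  have sx : s x = 0 := hx.2
  have sy : s y = 0 := hy.2
  rcases (hw x).1 hx.1 with h | h | h <;> rcases (hw y).1 hy.1 with h' | h' | h' <;>
    rw [h] at sx <;> rw [h'] at sy
  · exact absurd (h.trans h'.symm) hxy
  · exact Or.inr (Or.inr (hru s hs hsT sx sy))
  · exact Or.inr (Or.inl (hqu s hs hsT sx sy))
  · exact Or.inr (Or.inr (hru s hs hsT sy sx))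
  · exact absurd (h.trans h'.symm) hxy
  · exact Or.inl (hpu s hs hsT sx sy)
  · exact Or.inr (Or.inl (hqu s hs hsT sy sx))
  · exact Or.inl (hpu s hs hsT sy sx)
  · exact absurd (h.trans h'.symm) hxy

end Pool.Agent.helper66.SL
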